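import Mathlib
import Pool.Agent.X258.MRD.Main

/-!
# MP_e73581_co, Q1: disproof

There is an additive MRD code in `M_4(F_2)` with minimum distance `2` that contains no additive
MRD code with minimum distance `3`.  The code is the orthogonal complement (for the trace form) of
a semifield spread set `D` of order `16` whose nontrivial cosets all contain matrices of rank at
most two.
-/

set_option autoImplicit false

namespace Pool.Agent.Results.MP_e73581_co.NotNested

open Matrix

/-- The rank distance of two square matrices. -/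
noncomputable def rankDist {K : Type} [Field K] {n : ℕ} (A B : Matrix (Fin n) (Fin n) K) : ℕ :=
  (A - B).rank

/-- `d` is the minimum distance of the code `C`: the least rank distance of two different
members of `C` (in particular `C` has at least two members). -/
def IsMinDist {K : Type} [Field K] {n : ℕ} (C : Set (Matrix (Fin n) (Fin n) K)) (d : ℕ) : Prop :=
  IsLeast {r | ∃ A ∈ C, ∃ B ∈ C, A ≠ B ∧ r = rankDist A B} d

/-- `C` is an MRD code with minimum distance `d`: it has minimum distance `d` and
`q ^ (n (n - d + 1))` members, where `q = |K|`. -/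
def IsMRD {K : Type} [Field K] {n : ℕ} (C : Set (Matrix (Fin n) (Fin n) K)) (d : ℕ) : Prop :=
  IsMinDist C d ∧ C.ncard = Nat.card K ^ (n * (n - d + 1))

open Pool.Agent.X258.MRD in
theorem code_isMRD : IsMRD (code.toAddSubgroup : Set (Matrix (Fin 4) (Fin 4) (ZMod 2))) 2 := by
  refine ⟨⟨?_, ?_⟩, ?_⟩
  · have hmem : Matrix.diagonal ![(1 : ZMod 2), 1, 0, 0] ∈ code := by
      rw [code, LinearMap.mem_ker]
      decide
    have hne : Matrix.diagonal ![(1 : ZMod 2), 1, 0, 0] ≠ 0 := by decide
    refine ⟨Matrix.diagonal ![(1 : ZMod 2), 1, 0, 0], hmem, 0, code.zero_mem, hne, ?_⟩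
    rw [rankDist, sub_zero, Matrix.rank_diagonal]
    decide
  · rintro r ⟨A, hA, B, hB, hAB, rfl⟩
    exact two_le_rank (code.sub_mem hA hB) (sub_ne_zero.2 hAB)
  · have h : (code.toAddSubgroup : Set (Matrix (Fin 4) (Fin 4) (ZMod 2))).ncard = 2 ^ 12 :=
      card_code
    rw [h, Nat.card_zmod]

/-- **Disproof of Q1.**  There is an additive (even `F_2`-linear) MRD code `C` in the `4 × 4`
matrices over `F_2` with minimum distance `2` such that no additive MRD code with minimum distance
`3` is contained in `C`; hence it is not true that every additive MRD code with minimum distance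
`1 ≤ d < n` contains an additive MRD code with minimum distance `d + 1`. -/
theorem result :
    (∃ C : AddSubgroup (Matrix (Fin 4) (Fin 4) (ZMod 2)),
      IsMRD (C : Set (Matrix (Fin 4) (Fin 4) (ZMod 2))) 2 ∧
      ∀ C' : AddSubgroup (Matrix (Fin 4) (Fin 4) (ZMod 2)),
        C' ≤ C → ¬ IsMRD (C' : Set (Matrix (Fin 4) (Fin 4) (ZMod 2))) 3) ∧
    ¬ (∀ (K : Type) (_ : Field K) (_ : Finite K) (n d : ℕ), 1 ≤ d → d < n →
      ∀ C : AddSubgroup (Matrix (Fin n) (Fin n) K), IsMRD (C : Set (Matrix (Fin n) (Fin n) K)) d →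
        ∃ C' : AddSubgroup (Matrix (Fin n) (Fin n) K), C' ≤ C ∧
          IsMRD (C' : Set (Matrix (Fin n) (Fin n) K)) (d + 1)) := by
  have main : ∀ C' : AddSubgroup (Matrix (Fin 4) (Fin 4) (ZMod 2)),
      C' ≤ Pool.Agent.X258.MRD.code.toAddSubgroup →
      ¬ IsMRD (C' : Set (Matrix (Fin 4) (Fin 4) (ZMod 2))) 3 := by
    rintro C' hle ⟨⟨-, hmin⟩, hcard⟩
    have hc : Nat.card C' = 2 ^ 8 := by
      have h : (C' : Set (Matrix (Fin 4) (Fin 4) (ZMod 2))).ncard = Nat.card C' := rfl
      rw [← h, hcard, Nat.card_zmod]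
    obtain ⟨M, hM, hM0, hr⟩ := Pool.Agent.X258.MRD.no_subcode C' hle hc
    have := hmin ⟨M, hM, 0, C'.zero_mem, hM0, rfl⟩
    rw [rankDist, sub_zero] at this
    omega
  refine ⟨⟨_, code_isMRD, main⟩, fun hall => ?_⟩
  obtain ⟨C', hle, hC'⟩ := hall (ZMod 2) inferInstance inferInstance 4 2 (by norm_num) (by norm_num)
    Pool.Agent.X258.MRD.code.toAddSubgroup code_isMRD
  exact main C' hle hC'

end Pool.Agent.Results.MP_e73581_co.NotNested
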